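import Pool.Agent.Helper30.DL.GoalsD

/-! MP_b4564f_an, packet MISC (helper30). -/

set_option autoImplicit false

open Finset

namespace Pool.Agent.Helper32.DL

open Pool.Agent.Helper30.DL

lemma af_isC (A : AF) (h : A.isC = true) (x y z : ℝ) : A.Enc x y z A.ctr := by
  obtain ⟨cp, cn, xp, xn, yp, yn, zp, zn, r⟩ := A
  simp only [AF.isC, Bool.and_eq_true] at h
  obtain ⟨⟨⟨⟨⟨e1, e2⟩, e3⟩, e4⟩, e5⟩, e6⟩ := h
  obtain rfl := Nat.eq_of_beq_eq_true e1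
  obtain rfl := Nat.eq_of_beq_eq_true e2
  obtain rfl := Nat.eq_of_beq_eq_true e3
  obtain rfl := Nat.eq_of_beq_eq_true e4
  obtain rfl := Nat.eq_of_beq_eq_true e5
  obtain rfl := Nat.eq_of_beq_eq_true e6
  simp only [AF.Enc, AF.ctr]
  have : (10000000000 : ℝ) * (((cp : ℝ) - cn) / 10000000000) -
      (((cp : ℝ) - cn) + (((0 : ℕ) : ℝ) - ((0 : ℕ) : ℝ)) * x + (((0 : ℕ) : ℝ) - ((0 : ℕ) : ℝ)) * y +
        (((0 : ℕ) : ℝ) - ((0 : ℕ) : ℝ)) * z) = 0 := by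
    push_cast; ring
  rw [this, abs_zero]
  positivity

lemma ca_isC (A : CA) (h1 : A.re.isC = true) (h2 : A.im.isC = true) (x y z : ℝ) :
    A.Enc x y z ⟨A.re.ctr, A.im.ctr⟩ := ⟨af_isC _ h1 x y z, af_isC _ h2 x y z⟩

lemma expb (q v : ℝ) (h0 : 0 ≤ q) (h1 : q ≤ 1)
    (hv : ((∑ m ∈ range 10, q ^ m / (m.factorial : ℝ)) +
      q ^ 10 * ((10 : ℕ) + 1) / ((10 : ℕ).factorial * (10 : ℕ)) - 1) ^ 2 ≤ v / 10000 * q ^ 2) :
    (Real.exp q - 1) ^ 2 ≤ v / 10000 * q ^ 2 := by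
  have h := Real.exp_bound' h0 h1 (n := 10) (by norm_num)
  have h2 := Real.add_one_le_exp q
  refine le_trans ?_ hv
  refine pow_le_pow_left₀ (by linarith) ?_ 2
  linarith

lemma tau_lo (L : ℝ) (K k : ℕ) (hk : k ≤ K) (hL : 0 ≤ L)
    (h : L * (2 * (2 * K + 1)) ≤ 10000000000 * 3.14159265358979323846) :
    L ≤ 10000000000 * tau k := by
  unfold tau
  have hkR : (k : ℝ) ≤ K := by exact_mod_cast hk
  have hpi := Real.pi_gt_d20
  rw [← mul_div_assoc, le_div_iff₀ (by positivity)]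
  have h1 : L * (2 * (2 * (k : ℝ) + 1)) ≤ L * (2 * (2 * K + 1)) := by gcongr
  linarith

lemma tau_hi (U : ℝ) (K k : ℕ) (hk : K ≤ k) (hU : 0 ≤ U)
    (h : 10000000000 * 3.14159265358979323847 ≤ U * (2 * (2 * K + 1))) :
    10000000000 * tau k ≤ U := by
  unfold tau
  have hkR : (K : ℝ) ≤ k := by exact_mod_cast hk
  have hpi := Real.pi_lt_d20
  rw [← mul_div_assoc, div_le_iff₀ (by positivity)]
  have h1 : U * (2 * (2 * (K : ℝ) + 1)) ≤ U * (2 * (2 * k + 1)) := by gcongr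
  linarith

theorem misc : MiscStmt := by
  refine ⟨?_, ?_, ?_, ?_⟩
  · intro Q hQ
    simp only [PmA.isC, Bool.and_eq_true] at hQ
    obtain ⟨⟨⟨⟨⟨⟨⟨⟨⟨⟨⟨⟨⟨⟨⟨⟨⟨⟨⟨⟨⟨⟨⟨⟨h1, h2⟩, h3⟩, h4⟩, h5⟩, h6⟩, h7⟩, h8⟩, h9⟩, h10⟩, h11⟩, h12⟩,
      h13⟩, h14⟩, h15⟩, h16⟩, h17⟩, h18⟩, h19⟩, h20⟩, h21⟩, h22⟩, h23⟩, h24⟩, h25⟩ := hQ
    refine ⟨⟨?_, ?_, ?_, ?_, ?_, ?_, ?_, ?_, ?_, ?_, ?_, ?_, ?_, ?_⟩, ?_⟩
    · exact af_isC _ h1
    · exact af_isC _ h2
    · exact af_isC _ h3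
    · exact ca_isC _ h4 h5
    · exact ca_isC _ h6 h7
    · exact af_isC _ h8
    · exact ca_isC _ h9 h10
    · exact ca_isC _ h11 h12
    · exact ca_isC _ h13 h14
    · exact ca_isC _ h15 h16
    · exact ca_isC _ h17 h18
    · exact ca_isC _ h19 h20
    · exact ca_isC _ h21 h22
    · exact ca_isC _ h23 h24
    · show 0 ≤ ((Q.c1h.cp : ℝ) - Q.c1h.cn) / 10000000000
      have h := Nat.le_of_ble_eq_true h25
      have h' : (Q.c1h.cn : ℝ) ≤ Q.c1h.cp := by exact_mod_cast h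
      apply div_nonneg _ (by norm_num)
      linarith
  · intro q hq
    simp only [List.mem_cons, List.not_mem_nil, or_false] at hq
    rcases hq with rfl | rfl | rfl | rfl | rfl | rfl | rfl | rfl | rfl | rfl | rfl <;>
    exact expb _ _ (by norm_num) (by norm_num) (by norm_num [Finset.sum_range_succ, Nat.factorial])
  · intro q hq
    simp only [List.mem_cons, List.not_mem_nil, or_false] at hq
    rcases hq with rfl | rfl | rfl | rfl | rfl | rfl | rfl | rfl | rfl | rfl | rfl | rfl <;>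
    · intro k hk1 hk2
      exact ⟨tau_lo _ _ k hk2 (by norm_num) (by norm_num), tau_hi _ _ k hk1 (by norm_num) (by norm_num)⟩
  · intro k hk
    refine ⟨?_, tau_hi _ _ k hk (by norm_num) (by norm_num)⟩
    unfold tau
    positivity

end Pool.Agent.Helper32.DL
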